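import Mathlib
import Pool.Agent.H84.MC.M2
import Pool.Agent.L0.MaxCut

set_option autoImplicit false

/-! The exact number of edges needed for two disjoint total dominating sets in subdivisions of
multigraphs without simple edges, and the sharp bound for this class. -/

namespace Pool.Agent.Results.MP_df5a7a_co.MaxCutFormula

open Pool.Agent.H84.MC

universe u v

/-- `Good a b`: the multigraph with vertex set `B` and edges `e : E` with ends `a e`, `b e` has no
loops and no isolated vertices, and every edge has a parallel edge.  `Sd a b` is the graph obtained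
from it by subdividing every edge once; it has `n = |B| + |E|` vertices.  `mm a b` is the number
of its edges minus the size of a maximum cut.

(1) For every such multigraph `G = Sd a b` has minimum degree at least `2`,
`td(G) = ⌈mm / 2⌉`, `td(G) ≤ ⌈(√n - 1) ^ 2 / 4⌉` and `td(G) ≤ (n - 2 √n) / 4 + 3 / 4`.

(2) The bound `⌈(√n - 1) ^ 2 / 4⌉` is attained, by connected graphs with `n = (2 k + 1) ^ 2` and
`td = k ^ 2` and by connected graphs with `n = (2 k + 1) ^ 2 + 3` and `td = k ^ 2 + 1`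
(`i = 0` and `i = 1`), for all `k ≥ 1`; here `td(G)` is at least `(n - 2 √n) / 4 + (1 + i) / 4`. -/
theorem result :
    (∀ (B : Type u) (E : Type v) [Fintype B] [Fintype E] (a b : E → B), Good a b →
      (∀ x, 2 ≤ ((Sd a b).neighborSet x).ncard) ∧ (augmentSizes (Sd a b)).Nonempty ∧
      td (Sd a b) = (mm a b + 1) / 2 ∧
      td (Sd a b) ≤ ⌈(Real.sqrt (Fintype.card (B ⊕ E)) - 1) ^ 2 / 4⌉₊ ∧
      (td (Sd a b) : ℝ) ≤
        ((Fintype.card (B ⊕ E) : ℝ) - 2 * Real.sqrt (Fintype.card (B ⊕ E))) / 4 + 3 / 4) ∧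
    (∀ k i : ℕ, 1 ≤ k → i ≤ 1 →
      ∃ (B E : Type) (_ : Fintype B) (_ : Fintype E) (a b : E → B), Good a b ∧
        (Sd a b).Connected ∧ Fintype.card (B ⊕ E) = (2 * k + 1) ^ 2 + 3 * i ∧
        td (Sd a b) = k ^ 2 + i ∧
        td (Sd a b) = ⌈(Real.sqrt (Fintype.card (B ⊕ E)) - 1) ^ 2 / 4⌉₊ ∧
        ((Fintype.card (B ⊕ E) : ℝ) - 2 * Real.sqrt (Fintype.card (B ⊕ E))) / 4 + (1 + i) / 4 ≤
          (td (Sd a b) : ℝ)) := by
  have cut : ∀ (B : Type u) (E : Type v) [Fintype B] [Fintype E] (a b : E → B), Good a b →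
      2 * Fintype.card B * mm a b ≤ Fintype.card E * (Fintype.card B - 1) := by
    intro B E _ _ a b hG
    classical
    obtain ⟨f, hf⟩ := Pool.Agent.L0.maxcut a b hG.ne
    exact (Nat.mul_le_mul_left _ (mm_le f)).trans hf
  have cut0 : ∀ (B E : Type) [Fintype B] [Fintype E] (a b : E → B), Good a b →
      2 * Fintype.card B * mm a b ≤ Fintype.card E * (Fintype.card B - 1) := by
    intro B E _ _ a b hG
    classical
    obtain ⟨f, hf⟩ := Pool.Agent.L0.maxcut a b hG.ne
    exact (Nat.mul_le_mul_left _ (mm_le f)).trans hf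
  refine ⟨?_, ?_⟩
  · intro B E _ _ a b hG
    obtain ⟨h1, h2⟩ := td_bound hG (cut B E a b hG)
    obtain ⟨t, ht, -⟩ := upper hG
    exact ⟨min_deg hG, ⟨t, ht⟩, td_eq hG, h1, h2⟩
  · intro k i hk hi
    have hk3 : 3 ≤ 2 * k + 1 := by omega
    have hG := good hk3 (i := i)
    have hcut := cut0 _ _ _ _ hG
    have hmm := mm_ex hk3 hi hcut
    have htd := td_eq hG
    rw [hmm] at htd
    have htd' : td (Sd (ea hk3 : EE (2 * k + 1) i → Fin (2 * k + 1)) (eb hk3)) = k ^ 2 + i := by
      rw [htd]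
      omega
    have hcard : Fintype.card (Fin (2 * k + 1) ⊕ EE (2 * k + 1) i) = (2 * k + 1) ^ 2 + 3 * i := by
      rw [Fintype.card_sum, card_EE, Fintype.card_fin, Nat.add_sub_cancel]
      ring
    obtain ⟨hb, -⟩ := td_bound hG hcut
    refine ⟨_, _, inferInstance, inferInstance, ea hk3, eb hk3, hG, conn hk3, hcard, htd', ?_, ?_⟩
    · refine le_antisymm hb ?_
      rw [Nat.ceil_le, htd', hcard]
      push_cast
      have hs : (2 * (k : ℝ) + 1) ≤ Real.sqrt ((2 * (k : ℝ) + 1) ^ 2 + 3 * i) := by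
        apply Real.le_sqrt_of_sq_le
        have : (0 : ℝ) ≤ i := by positivity
        linarith
      have hs2 : Real.sqrt ((2 * (k : ℝ) + 1) ^ 2 + 3 * i) ^ 2 = (2 * (k : ℝ) + 1) ^ 2 + 3 * i :=
        Real.sq_sqrt (by positivity)
      nlinarith [show (0 : ℝ) ≤ i by positivity]
    · rw [htd', hcard]
      push_cast
      have hs : (2 * (k : ℝ) + 1) ≤ Real.sqrt ((2 * (k : ℝ) + 1) ^ 2 + 3 * i) := by
        apply Real.le_sqrt_of_sq_le
        have : (0 : ℝ) ≤ i := by positivity
        linarith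
      nlinarith [show (0 : ℝ) ≤ i by positivity]

end Pool.Agent.Results.MP_df5a7a_co.MaxCutFormula
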