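import Mathlib
import Pool.Agent.H84.MC.Fin4
import Pool.Agent.H13.TD2.Final
import Pool.Agent.H13.TD2.Every

set_option autoImplicit false

/-! The sharp upper bound for the number of edges needed for two disjoint total dominating sets. -/

namespace Pool.Agent.Results.MP_df5a7a_co.SharpUpperBound

open Pool.Agent.H84.MC

/-- `augmentSizes G` is the set of numbers `t` such that adding some `t` edges of the complement of
`G` gives a graph with two disjoint total dominating sets, and `td G` is its least element.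

(1) For every graph `G` with `n ≥ 4` vertices and minimum degree at least `2` one has
`td(G) ≤ max (⌈(√n - 1) ^ 2 / 4⌉, ⌊n / 5⌋ + 1)`; hence `td(G) ≤ (n - 2 √n) / 4 + 9 / 4`, and
`td(G) ≤ ⌈(√n - 1) ^ 2 / 4⌉ < (n - 2 √n) / 4 + 5 / 4` if `n ≥ 90`.

(2) The last bound is attained infinitely often: for every `k ≥ 1` and `i = 0, 1` there is a
connected graph `G` with `n = (2 k + 1) ^ 2 + 3 i` vertices and minimum degree at least `2` such
that `td(G) = k ^ 2 + i = ⌈(√n - 1) ^ 2 / 4⌉`; here `td(G) ≥ (n - 2 √n) / 4 + (1 + i) / 4`.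
For every `m ≥ 3` (also even `m`) there is a connected graph `G` with `n = m ^ 2 + 3` vertices and
minimum degree at least `2` such that `td(G) = ⌊(m - 1) ^ 2 / 4⌋ + 1 = ⌈(√n - 1) ^ 2 / 4⌉`.

(3) For every `n ≥ 81` there is a connected graph `G` with `n` vertices and minimum degree at least
`2` such that `td(G) ≥ (n - 2 √n) / 4 - (9 / 8) n ^ (1 / 4)`.

(4) There is a graph with `n = 8` vertices and minimum degree at least `2` such that
`td(G) = 2 = (n - 2 √n) / 4 + √2`. -/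
theorem result :
    (∀ (V : Type) [Fintype V] (G : SimpleGraph V), 4 ≤ Fintype.card V →
      (∀ v, 2 ≤ (G.neighborSet v).ncard) →
      (augmentSizes G).Nonempty ∧
      td G ≤ max ⌈(Real.sqrt (Fintype.card V) - 1) ^ 2 / 4⌉₊ (Fintype.card V / 5 + 1) ∧
      (td G : ℝ) ≤ ((Fintype.card V : ℝ) - 2 * Real.sqrt (Fintype.card V)) / 4 + 9 / 4 ∧
      (90 ≤ Fintype.card V →
        td G ≤ ⌈(Real.sqrt (Fintype.card V) - 1) ^ 2 / 4⌉₊ ∧
        (td G : ℝ) < ((Fintype.card V : ℝ) - 2 * Real.sqrt (Fintype.card V)) / 4 + 5 / 4)) ∧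
    (∀ k i : ℕ, 1 ≤ k → i ≤ 1 → ∃ (V : Type) (_ : Fintype V) (G : SimpleGraph V),
      Fintype.card V = (2 * k + 1) ^ 2 + 3 * i ∧ G.Connected ∧
      (∀ v, 2 ≤ (G.neighborSet v).ncard) ∧
      td G = k ^ 2 + i ∧ td G = ⌈(Real.sqrt (Fintype.card V) - 1) ^ 2 / 4⌉₊ ∧
      ((Fintype.card V : ℝ) - 2 * Real.sqrt (Fintype.card V)) / 4 + (1 + i) / 4 ≤ (td G : ℝ)) ∧
    (∀ m : ℕ, 3 ≤ m → ∃ (V : Type) (_ : Fintype V) (G : SimpleGraph V),
      Fintype.card V = m ^ 2 + 3 ∧ G.Connected ∧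
      (∀ v, 2 ≤ (G.neighborSet v).ncard) ∧
      td G = (m - 1) ^ 2 / 4 + 1 ∧ td G = ⌈(Real.sqrt (Fintype.card V) - 1) ^ 2 / 4⌉₊) ∧
    (∀ n : ℕ, 81 ≤ n → ∃ (V : Type) (_ : Fintype V) (G : SimpleGraph V),
      Fintype.card V = n ∧ G.Connected ∧ (∀ v, 2 ≤ (G.neighborSet v).ncard) ∧
      ((n : ℝ) - 2 * Real.sqrt n) / 4 - 9 / 8 * Real.sqrt (Real.sqrt n) ≤ (td G : ℝ)) ∧
    (∃ (V : Type) (_ : Fintype V) (G : SimpleGraph V), Fintype.card V = 8 ∧
      (∀ v, 2 ≤ (G.neighborSet v).ncard) ∧ td G = 2 ∧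
      (td G : ℝ) = ((Fintype.card V : ℝ) - 2 * Real.sqrt (Fintype.card V)) / 4 + Real.sqrt 2) := by
  refine ⟨?_, ceil_examples, all_examples, H13.TD2.Every.every, ?_⟩
  · intro V _ G hn hd
    have h1 := H13.TD2.upper G hn hd
    exact ⟨augmentSizes_nonempty hn G, h1, ceil_bound h1, fun h90 =>
      ⟨H13.TD2.upper90 G h90 hd, ceil_bound90 (H13.TD2.upper90 G h90 hd)⟩⟩
  · have h1 := H13.TD2.upper K3C5 (by simp) deg_K3C5
    exact ⟨_, inferInstance, K3C5, by simp, deg_K3C5, small_K3C5 h1⟩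

end Pool.Agent.Results.MP_df5a7a_co.SharpUpperBound
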